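import Pool.Agent.H174.GP.StG

/-! Project GP (helper174): the Gaussian process is admissible (helper719). -/

set_option autoImplicit false

open MeasureTheory ProbabilityTheory Finset

namespace Pool.Agent.H719.GP174

theorem gauss_two : ∫ y, y ^ 2 ∂(gaussianReal 0 1) = 1 := by
  have h := variance_of_integral_eq_zero (μ := gaussianReal 0 1) (X := fun y : ℝ => y)
    aemeasurable_id integral_id_gaussianReal
  rw [← h]
  have h2 := variance_id_gaussianReal (μ := 0) (v := 1)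
  exact h2.trans (by simp)

theorem gauss_four : Integrable (fun y : ℝ => y ^ 4) (gaussianReal 0 1) := by
  have h0 : MemLp (id : ℝ → ℝ) ((4 : ℕ) : ENNReal) (gaussianReal 0 1) := by
    have := memLp_id_gaussianReal (μ := 0) (v := 1) 4
    simpa using this
  have h := h0.integrable_norm_pow (by norm_num)
  refine h.congr (Filter.Eventually.of_forall fun y => ?_)
  show ‖y‖ ^ 4 = y ^ 4
  rw [Real.norm_eq_abs]
  exact Even.pow_abs ⟨2, rfl⟩ y

theorem gp_admg : Pool.Agent.H174.GP.S_AdmG := by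
  intro G hmono hodd hmeas hmap
  have h4 : Integrable (fun x => G x ^ 4) Pool.Agent.H174.GP.lap := by
    have h := gauss_four
    rw [← hmap] at h
    exact (integrable_map_measure (by fun_prop) hmeas.aemeasurable).1 h
  have h2 : ∫ x, G x ^ 2 ∂Pool.Agent.H174.GP.lap = 1 := by
    rw [← gauss_two, ← hmap, integral_map hmeas.aemeasurable (by fun_prop)]
  have hk : 0 ≤ ∫ x, G x ^ 4 ∂Pool.Agent.H174.GP.lap :=
    integral_nonneg fun x => by positivity
  refine ⟨(∫ x, G x ^ 4 ∂Pool.Agent.H174.GP.lap) + 1, by linarith, fun L => ?_⟩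
  have e2 : ∀ j : ℕ, ∫ x, (G x / (j : ℝ)) ^ 2 ∂Pool.Agent.H174.GP.lap = 1 / (j : ℝ) ^ 2 := by
    intro j
    simp only [div_pow]
    rw [integral_div, h2]
  have e4 : ∀ j : ℕ, ∫ x, (G x / (j : ℝ)) ^ 4 ∂Pool.Agent.H174.GP.lap =
      (∫ x, G x ^ 4 ∂Pool.Agent.H174.GP.lap) / (j : ℝ) ^ 4 := by
    intro j
    simp only [div_pow]
    rw [integral_div]
  refine ⟨one_pos, fun j _ x => ?_, fun j _ x y hxy => ?_, fun j _ => ?_, fun j _ => ?_,
    fun j _ => ?_, fun j _ => ?_⟩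
  · show G (-x) / (j : ℝ) = -(G x / (j : ℝ))
    rw [hodd, neg_div]
  · show G x / (j : ℝ) ≤ G y / (j : ℝ)
    exact div_le_div_of_nonneg_right (hmono hxy) (Nat.cast_nonneg j)
  · show 1 * 1 ^ 2 / (j : ℝ) ^ 2 ≤ ∫ x, (G x / (j : ℝ)) ^ 2 ∂Pool.Agent.H174.GP.lap
    rw [e2]
    simp
  · show ∫ x, (G x / (j : ℝ)) ^ 2 ∂Pool.Agent.H174.GP.lap ≤ 1 * 1 ^ 2 / (j : ℝ) ^ 2
    rw [e2]
    simp
  · show ∫ x, (G x / (j : ℝ)) ^ 4 ∂Pool.Agent.H174.GP.lap ≤
      ((∫ x, G x ^ 4 ∂Pool.Agent.H174.GP.lap) + 1) * 1 ^ 4 / (j : ℝ) ^ 4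
    rw [e4]
    refine div_le_div_of_nonneg_right ?_ (by positivity)
    linarith
  · show Integrable (fun x => (G x / (j : ℝ)) ^ 4) Pool.Agent.H174.GP.lap
    simp only [div_pow]
    exact h4.div_const _

end Pool.Agent.H719.GP174
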